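import Pool.Agent.K6.H57.MX.Bf

/-!
# The maximal discrepancy of a typical run of consecutive zeros

Assume the Riemann hypothesis.  Let `δ_n` be the unfolded gaps between consecutive zeros of the
Riemann zeta function, and let

`D_r(n) = (δ_n + ... + δ_{n+r-1}) - r`

be the discrepancy of the block of `r` gaps that starts at the `n`-th zero.  We prove that for almost
all `n`

`max_{1 ≤ r ≤ R} D_r(n) ~ (1/π) log R`  and  `min_{1 ≤ r ≤ R} D_r(n) ~ - (1/π) log R`,

in density: for every `ε > 0`, every `R ≥ R₀(ε)` and every `N ≥ N₀(ε, R)`, both asymptotics hold up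
to `ε log R` for at least `(1 - ε) N` of the indices `n ≤ N`.  These are the laws predicted by the
GUE hypothesis: for the sine process the same holds with the same constant `1/π` (the maximum of
the logarithmically correlated counting field), while independent gaps would deviate by `√R`.

Idea of the proof.  For `t` uniformly distributed in a long bulk `[T, 2T]` the explicit formula
writes the counting function of the zeros near `t`, smoothed at a scale comparable with the
average spacing, as a linear statistic with a band limited kernel plus a Dirichlet polynomial over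
the primes, and the differences of the polynomial between points at distance up to `R` spacings form
a field with logarithmic covariances.

* Laplace transforms.  The moments of a short Dirichlet polynomial are Gaussian on the bulk up to
  the length allowed by the support; with truncated exponentials this gives the Laplace transforms
  of the field, hence the upper bound for its maximum (first moment).
* Lower bound.  A multiscale second moment method: the polynomial is cut into a large fixed number
  of bands, each band has an almost constant covariance over a logarithmic range of distances, and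
  the points at which all the bands together reach the fraction `1 - ε` of the expected maximum,
  with barriers at every band, are counted by their first two moments under tilted measures.
* The smoothing is removed with the exponential-moment bounds for the linear statistics at the
  scale of the average spacing, which cost only `o(log R)`; then the laws are transferred from the
  points `t` to the zeros `γ_n` by averaging over short translates (the functional is almost
  invariant under translations by a few spacings), and from the counting function to the gap sums by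
  inversion.
-/

set_option autoImplicit false

open Filter Topology

namespace Pool.Agent.K6.H57.MaximalDiscrepancy

/-- multiplicity of `s` as a zero of the Riemann zeta function (order of vanishing at `s`) -/
noncomputable def zmult (s : ℂ) : ℕ := analyticOrderNatAt riemannZeta s

/-- the number of nontrivial zeros of `ζ` with ordinate in `(0, t]`, with multiplicity -/
noncomputable def NZ (t : ℝ) : ℕ :=
  ∑ᶠ s ∈ {s : ℂ | riemannZeta s = 0 ∧ 0 < s.re ∧ s.re < 1 ∧ 0 < s.im ∧ s.im ≤ t}, zmult s

/-- for `n ≥ 1`: the `n`-th positive ordinate `γ n` of a nontrivial zero of `ζ`, the ordinates being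
listed in nondecreasing order and repeated according to multiplicity -/
noncomputable def γ (n : ℕ) : ℝ := sInf {t : ℝ | n ≤ NZ t}

/-- the unfolded consecutive gaps `δ_n = (γ_{n+1} - γ_n) / 2π · log (γ_n / 2π)` -/
noncomputable def δ (n : ℕ) : ℝ := (γ (n + 1) - γ n) / (2 * Real.pi) * Real.log (γ n / (2 * Real.pi))

/-- the discrepancy `(δ_n + ... + δ_{n+r-1}) - r` of the block of `r` gaps starting at the
`n`-th zero -/
noncomputable def D (r n : ℕ) : ℝ := ∑ i ∈ Finset.range r, δ (n + i) - r

/-- the largest discrepancy of the blocks of `1, ..., R` gaps starting at the `n`-th zero -/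
noncomputable def Dmax (R n : ℕ) : ℝ := sSup ((fun r : ℕ => D r n) '' Set.Icc 1 R)

/-- the least discrepancy of the blocks of `1, ..., R` gaps starting at the `n`-th zero -/
noncomputable def Dmin (R n : ℕ) : ℝ := sInf ((fun r : ℕ => D r n) '' Set.Icc 1 R)

open Pool.Agent.K6.H57.MX

lemma D_eq (r n : ℕ) : D r n = Pool.Agent.R320.CL.SS r n - r := rfl

lemma good_of_Gg {ε : ℝ} {R n : ℕ} (hR : 1 ≤ R) (h : Gg ε R n) :
    |Dmax R n - Real.log R / Real.pi| ≤ ε * Real.log R ∧
      |Dmin R n + Real.log R / Real.pi| ≤ ε * Real.log R := by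
  obtain ⟨h1, ⟨r2, hr2, h2⟩, ⟨r3, hr3, h3⟩⟩ := h
  have hne : ((fun r : ℕ => D r n) '' Set.Icc 1 R).Nonempty :=
    ⟨_, 1, ⟨le_rfl, hR⟩, rfl⟩
  have hfin : ((fun r : ℕ => D r n) '' Set.Icc 1 R).Finite := (Set.finite_Icc 1 R).image _
  have hup : ∀ x ∈ (fun r : ℕ => D r n) '' Set.Icc 1 R, x ≤ (1 / Real.pi + ε) * Real.log R := by
    rintro x ⟨r, hr, rfl⟩
    exact (abs_le.1 (h1 r (Finset.mem_Icc.2 hr))).2
  have hlo : ∀ x ∈ (fun r : ℕ => D r n) '' Set.Icc 1 R, -((1 / Real.pi + ε) * Real.log R) ≤ x := by
    rintro x ⟨r, hr, rfl⟩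
    exact (abs_le.1 (h1 r (Finset.mem_Icc.2 hr))).1
  have a1 : Dmax R n ≤ (1 / Real.pi + ε) * Real.log R := csSup_le hne hup
  have a2 : (1 / Real.pi - ε) * Real.log R ≤ Dmax R n :=
    h2.trans (le_csSup hfin.bddAbove ⟨r2, Finset.mem_Icc.1 hr2, rfl⟩)
  have a3 : -((1 / Real.pi + ε) * Real.log R) ≤ Dmin R n := le_csInf hne hlo
  have a4 : Dmin R n ≤ -((1 / Real.pi - ε) * Real.log R) :=
    (csInf_le hfin.bddBelow ⟨r3, Finset.mem_Icc.1 hr3, rfl⟩).trans h3
  have e : Real.log R / Real.pi = 1 / Real.pi * Real.log R := by ring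
  rw [e, abs_le, abs_le]
  refine ⟨⟨?_, ?_⟩, ⟨?_, ?_⟩⟩ <;> linarith

/-- **Theorem.** On the Riemann hypothesis, for almost all `n` the discrepancies
`(δ_n + ... + δ_{n+r-1}) - r`, `1 ≤ r ≤ R`, of the blocks of gaps starting at the `n`-th zero have
maximum `(1/π + o(1)) log R` and minimum `-(1/π + o(1)) log R`: for every `ε > 0`, all `R ≥ R₀(ε)` and
all `N ≥ N₀(ε, R)`, both hold within `ε log R` for at least `(1 - ε) N` of the `n ≤ N`. -/
theorem result (RH : RiemannHypothesis) (ε : ℝ) (hε : 0 < ε) :
    ∃ R₀ : ℕ, ∀ R ≥ R₀, ∃ N₀ : ℕ, ∀ N ≥ N₀,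
      (1 - ε) * N ≤ ({n : ℕ | 1 ≤ n ∧ n ≤ N ∧
        |Dmax R n - Real.log R / Real.pi| ≤ ε * Real.log R ∧
        |Dmin R n + Real.log R / Real.pi| ≤ ε * Real.log R}.ncard : ℝ) := by
  classical
  obtain ⟨R₀, hR₀⟩ := eventually_atTop.1 (allZ RH hε)
  refine ⟨max R₀ 1, fun R hR => ?_⟩
  obtain ⟨N₀, hN₀⟩ := eventually_atTop.1 (hR₀ R ((le_max_left _ _).trans hR))
  refine ⟨N₀, fun N hN => ?_⟩
  have h1 := hN₀ N hN
  have h2 : ((Finset.Icc 1 N).filter fun n => Gg ε R n).card +
      ((Finset.Icc 1 N).filter fun n => ¬ Gg ε R n).card = N := by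
    rw [Finset.card_filter_add_card_filter_not, Nat.card_Icc, Nat.add_sub_cancel]
  have h3 : ((Finset.Icc 1 N).filter fun n => Gg ε R n).card ≤ ({n : ℕ | 1 ≤ n ∧ n ≤ N ∧
        |Dmax R n - Real.log R / Real.pi| ≤ ε * Real.log R ∧
        |Dmin R n + Real.log R / Real.pi| ≤ ε * Real.log R}.ncard) := by
    rw [← Set.ncard_coe_finset]
    apply Set.ncard_le_ncard
    · intro n hn
      rw [Finset.mem_coe, Finset.mem_filter, Finset.mem_Icc] at hn
      obtain ⟨hn1, hn2⟩ := hn
      exact ⟨hn1.1, hn1.2, good_of_Gg ((le_max_right _ _).trans hR) hn2⟩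
    · exact (Set.finite_Icc 1 N).subset fun n hn => ⟨hn.1, hn.2.1⟩
  have h4 : (((Finset.Icc 1 N).filter fun n => Gg ε R n).card : ℝ) +
      (((Finset.Icc 1 N).filter fun n => ¬ Gg ε R n).card : ℝ) = N := by exact_mod_cast h2
  have h5 : (((Finset.Icc 1 N).filter fun n => Gg ε R n).card : ℝ) ≤ (({n : ℕ | 1 ≤ n ∧ n ≤ N ∧
        |Dmax R n - Real.log R / Real.pi| ≤ ε * Real.log R ∧
        |Dmin R n + Real.log R / Real.pi| ≤ ε * Real.log R}.ncard : ℕ) : ℝ) := by exact_mod_cast h3
  have h6 : (((Finset.Icc 1 N).filter fun n => ¬ Gg ε R n).card : ℝ) ≤ ε * N := by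
    convert h1 using 4
  linarith

end Pool.Agent.K6.H57.MaximalDiscrepancy
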